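import Mathlib
import Pool.Agent.R630.WD.Basic
import Pool.Agent.J4H26.AF.Coal

/-!
# Orbits of related integers under the entire `3x+1` function are coalescing random walks

Let `f₀` be the entire interpolation of the `3x+1` map of Letherman, Schleicher and Wood.  We consider `k` linear forms
`u i m = 3 ^ a i m + r i` and follow their orbits under `f₀` for `t` steps, for a random `m`.  On a class of `m` modulo
`2 ^ t` the integer `f₀^t (u i m)` is a linear function of `m`, with slope `3 ^ (A i) / 2 ^ t`, where the exponent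
`A i = A t i m` is `a i` plus the number of odd integers among the first `t` points of the orbit of `u i m`.  Each `A i`
alone is a random walk with steps `0`, `1`.  If the orbits of `u i m` and `u j m` have met, `A i = A j` from then on.

The theorem: in the limit `t → ∞` the exponents of `k` forms behave like `k` random walks which are independent until
they meet and move together afterwards (coalescing random walks, in the scaling limit the Brownian web), and two
exponents whose distance is small compared with `√t` belong to orbits which have met.  Everything is uniform in the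
forms, as long as `a i` and `log |r i|` are small compared with `t`, and in the position of the interval of the `m`.

For coalescing walks the joint distribution function is an explicit determinant of binomial sums (a formula of Warren
for Brownian motions); the proof follows the determinant along the orbits.  The estimates for pairs used in the proof
are helper39's (files `J4H39`), with the a priori bounds of `H499R2/CO`.
-/

set_option autoImplicit false

open Filter Topology

namespace Pool.Agent.Results.MP_071ec9_an.CoalescingWalks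

/-- The entire function of Letherman, Schleicher and Wood; `f₀ n = T n` for every integer `n`, where
`T` is the `3x+1` function. -/
noncomputable def f₀ (z : ℂ) : ℂ :=
  z / 2 + (z + 1 / 2) * ((1 - Complex.cos (Real.pi * z)) / 2) +
    1 / Real.pi * (1 / 2 - Complex.cos (Real.pi * z)) * Complex.sin (Real.pi * z)

/-- The number of `j < t` for which `f₀^j (n)` is an odd integer. -/
noncomputable def odds (t : ℕ) (n : ℤ) : ℕ := {j : ℕ | j < t ∧ ∃ q : ℤ, f₀^[j] (n : ℂ) = ((2 * q + 1 : ℤ) : ℂ)}.ncard

/-- The exponent of the form `3 ^ a m + r` at time `t`: on the class of `m` modulo `2 ^ t` the integer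
`f₀^t (3 ^ a m + r)` is a linear function of `m` with slope `3 ^ A / 2 ^ t`. -/
noncomputable def A (t : ℕ) (a : ℕ) (r : ℤ) (m : ℤ) : ℤ := a + odds t (3 ^ a * m + r)

/-- The proportion of the integers `m`, `x ≤ m < x + N`, with `P m`. -/
noncomputable def prop (x : ℤ) (N : ℕ) (P : ℤ → Prop) : ℝ := ({m : ℤ | x ≤ m ∧ m < x + N ∧ P m}.ncard : ℝ) / N

/-- The possible moves of `k` coalescing walks at the positions `z`: all vectors `p` of zeros and ones such that walks at
the same position move together. -/
def moves {k : ℕ} (z : Fin k → ℤ) : Finset (Fin k → Fin 2) := Finset.univ.filter fun p => ∀ i j, z i = z j → p i = p j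

/-- The probability that `k` coalescing random walks, started at the positions `z`, are at positions `≤ y` after `s`
steps.  In a step all the possible moves have the same probability. -/
noncomputable def walks {k : ℕ} (y : Fin k → ℤ) : ℕ → (Fin k → ℤ) → ℝ
  | 0, z => if ∀ i, z i ≤ y i then 1 else 0
  | s + 1, z => (∑ p ∈ moves z, walks y s (fun i => z i + (p i : ℕ))) / (moves z).card

/-- The distribution function of the number of successes in `s` fair trials. -/
noncomputable def bin (s : ℕ) (d : ℤ) : ℝ := (∑ l ∈ Finset.range (s + 1), if (l : ℤ) ≤ d then (s.choose l : ℝ) else 0) / 2 ^ s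

open Pool.Agent.J4H26.AF

theorem iter_f (n : ℤ) (t : ℕ) : f₀^[t] (n : ℂ) = ((Pool.Agent.J4H39.T^[t] n : ℤ) : ℂ) :=
  Pool.Agent.H723R2.LSW.f₀_iter n t

theorem odds_eq (t : ℕ) (n : ℤ) : odds t n = Pool.Agent.J4H39.od t n := by
  have key : ∀ j : ℕ, (∃ k : ℤ, f₀^[j] (n : ℂ) = ((2 * k + 1 : ℤ) : ℂ)) ↔ Pool.Agent.J4H39.T^[j] n % 2 = 1 := by
    intro j
    rw [iter_f]
    simp only [Int.cast_inj]
    constructor
    · rintro ⟨k, hk⟩; omega
    · intro h; exact ⟨Pool.Agent.J4H39.T^[j] n / 2, by omega⟩
  unfold odds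
  simp only [key]
  induction t with
  | zero => simp [Pool.Agent.J4H39.od]
  | succ t ih =>
    rw [Pool.Agent.J4H39.od_succ, ← ih]
    have hfin : {j : ℕ | j < t ∧ Pool.Agent.J4H39.T^[j] n % 2 = 1}.Finite :=
      (Set.finite_Iio t).subset fun j hj => hj.1
    rcases Pool.Agent.J4H39.pr_cases t n with ⟨h1, h2⟩ | ⟨h1, h2⟩
    · rw [h1, add_zero]
      congr 1
      ext j
      simp only [Set.mem_ofPred_eq]
      constructor
      · rintro ⟨h3, h4⟩
        refine ⟨?_, h4⟩
        rcases Nat.lt_succ_iff_lt_or_eq.1 h3 with h5 | h5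
        · exact h5
        · subst h5; omega
      · rintro ⟨h3, h4⟩; exact ⟨by omega, h4⟩
    · rw [h1]
      have e : {j : ℕ | j < t + 1 ∧ Pool.Agent.J4H39.T^[j] n % 2 = 1} =
          insert t {j : ℕ | j < t ∧ Pool.Agent.J4H39.T^[j] n % 2 = 1} := by
        ext j
        simp only [Set.mem_ofPred_eq, Set.mem_insert_iff]
        constructor
        · rintro ⟨h3, h4⟩
          rcases Nat.lt_succ_iff_lt_or_eq.1 h3 with h5 | h5
          · right; exact ⟨h5, h4⟩
          · left; exact h5
        · rintro (rfl | ⟨h3, h4⟩)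
          · exact ⟨by omega, h2⟩
          · exact ⟨by omega, h4⟩
      rw [e, Set.ncard_insert_of_notMem (by simp) hfin]

theorem A_eq {k : ℕ} (a : Fin k → ℕ) (r : Fin k → ℤ) (t : ℕ) (m : ℤ) (i : Fin k) : A t (a i) (r i) m = AA a r t m i := by
  unfold A AA Lf
  rw [odds_eq]

theorem walks_eq {k : ℕ} (y : Fin k → ℤ) (s : ℕ) : ∀ z, walks y s z = coal y s z := by
  induction s with
  | zero => intro z; rfl
  | succ s ih =>
    intro z
    show (∑ p ∈ moves z, walks y s (fun i => z i + (p i : ℕ))) / (moves z).card =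
      (∑ p ∈ Pool.Agent.J4H26.AF.moves z, coal y s (fun i => z i + (p i : ℕ))) / (Pool.Agent.J4H26.AF.moves z).card
    have e : moves z = Pool.Agent.J4H26.AF.moves z := rfl
    rw [e, Finset.sum_congr rfl (fun p _ => ih _)]

theorem bin_eq (s : ℕ) (d : ℤ) : bin s d = Fb s d := by
  unfold bin
  rw [Fb_rep, Finset.sum_div]
  apply Finset.sum_congr rfl
  intro l _
  rw [pm_eq]
  split_ifs
  · ring
  · ring

theorem prop_near {t : ℕ} {P : ℤ → Prop} (hP : Pool.Agent.J4H39.Per t P) (x : ℤ) {N : ℕ} (hN : 1 ≤ N) :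
    |prop x N P - Pool.Agent.J4H39.pb t P| ≤ 2 ^ t / N := by
  classical
  have hN0 : (0 : ℝ) < N := by exact_mod_cast hN
  have h1 := Pool.Agent.J4H26.CC.count_per hP x N
  unfold prop
  rw [Pool.Agent.J4H26.CC.ncard_eq]
  have e : ((Finset.card (Finset.filter (fun v : ℕ => P (x + ((v : ℕ) : ℤ))) (Finset.range N)) : ℕ) : ℝ) / N - Pool.Agent.J4H39.pb t P =
      (((Finset.card (Finset.filter (fun v : ℕ => P (x + ((v : ℕ) : ℤ))) (Finset.range N)) : ℕ) : ℝ) - N * Pool.Agent.J4H39.pb t P) / N := by
    field_simp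
  rw [e, abs_div, abs_of_pos hN0]
  apply div_le_div_of_nonneg_right _ hN0.le
  refine h1.trans ?_
  have := Pool.Agent.J4H39.pb_le_one t P
  have h2 : (0 : ℝ) < 2 ^ t := by positivity
  nlinarith

/-- **The orbits of `k` related integers are coalescing random walks.**  For all `k` and `ε > 0` there are `c, β > 0` and
`K` such that for all `t ≥ K`, all `N ≥ K 2 ^ t`, all `x`, and all forms `3 ^ a i m + r i` (`i < k`) with
`a 0 ≤ a 1 ≤ …`, `a i ≤ c t` and `|r i| ≤ exp (c t)`, for the integers `m`, `x ≤ m < x + N`: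

* for all integers `y 0 ≤ y 1 ≤ …` the proportion of the `m` for which all the exponents `A t (a i) (r i) m` are at most
  `y i` differs by at most `ε` from the probability that coalescing random walks started at the `a i` are at positions
  at most `y i` after `t` steps, and this probability is `det (bin t (y j - a i) - [i < j])`;
* for all `i`, `j` the proportion of the `m` for which the exponents of the forms `i` and `j` differ by at most `β √t`,
  but `f₀^t` maps the values of the two forms to different integers, is at most `ε`. -/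
theorem result (k : ℕ) (ε : ℝ) (hε : 0 < ε) : ∃ (c β : ℝ) (K : ℕ), 0 < c ∧ 0 < β ∧
    ∀ t N : ℕ, K ≤ t → K * 2 ^ t ≤ N → ∀ (x : ℤ) (a : Fin k → ℕ) (r : Fin k → ℤ), Monotone a →
      (∀ i, (a i : ℝ) ≤ c * t ∧ |(r i : ℝ)| ≤ Real.exp (c * t)) →
      (∀ y : Fin k → ℤ, Monotone y →
        walks y t (fun i => a i) = Matrix.det (fun i j => bin t (y j - a i) - if i < j then 1 else 0) ∧
        |prop x N (fun m => ∀ i, A t (a i) (r i) m ≤ y i) - walks y t (fun i => a i)| ≤ ε) ∧
      ∀ i j, prop x N (fun m => |(A t (a i) (r i) m : ℝ) - A t (a j) (r j) m| ≤ β * √ (t : ℝ) ∧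
        f₀^[t] ((3 ^ a i * m + r i : ℤ) : ℂ) ≠ f₀^[t] ((3 ^ a j * m + r j : ℤ) : ℂ)) ≤ ε := by
  obtain ⟨c₁, hc₁, h1⟩ := main_law k (half_pos hε)
  obtain ⟨β, hβ, c₂, hc₂, h2⟩ := close_merged (half_pos hε)
  obtain ⟨t₁, ht₁⟩ := eventually_atTop.1 (h1.and h2)
  obtain ⟨K₁, hK₁⟩ := exists_nat_ge (2 / ε)
  obtain ⟨K₂, hK₂⟩ := exists_nat_ge (2 / min c₁ c₂)
  refine ⟨min c₁ c₂ / 2, β, max t₁ (max (K₁ + 1) K₂), by positivity, hβ, ?_⟩
  intro t N ht hN x a r ha hsm
  have htt₁ : t₁ ≤ t := (le_max_left _ _).trans ht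
  have htK₁ : K₁ + 1 ≤ t := ((le_max_left _ _).trans (le_max_right _ _)).trans ht
  have htK₂ : K₂ ≤ t := ((le_max_right _ _).trans (le_max_right _ _)).trans ht
  have hNK : (K₁ + 1) * 2 ^ t ≤ N := (Nat.mul_le_mul_right _ ((le_max_left _ _).trans (le_max_right _ _))).trans hN
  have hN1 : 1 ≤ N := le_trans (Nat.mul_pos (by omega) (by positivity)) hNK
  have hN0 : (0 : ℝ) < N := by exact_mod_cast hN1
  have h2t : (0 : ℝ) < 2 ^ t := by positivity
  have herr : (2 : ℝ) ^ t / N ≤ ε / 2 := by
    rw [div_le_iff₀ hε] at hK₁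
    rw [div_le_iff₀ hN0]
    have h3 : ((K₁ : ℝ) + 1) * 2 ^ t ≤ N := by exact_mod_cast hNK
    nlinarith
  have hmin : 0 < min c₁ c₂ := lt_min hc₁ hc₂
  have ht0 : (0 : ℝ) ≤ t := by positivity
  have hct : 2 ≤ min c₁ c₂ * (t : ℝ) := by
    rw [div_le_iff₀ hmin] at hK₂
    have : (K₂ : ℝ) ≤ t := by exact_mod_cast htK₂
    nlinarith
  have hsmall : Small a r (min c₁ c₂) t := by
    intro i
    obtain ⟨g1, g2⟩ := hsm i
    refine ⟨g1.trans (by nlinarith), g2.trans ?_⟩
    have h3 := Nat.lt_floor_add_one (min c₁ c₂ * (t : ℝ))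
    have h4 : Real.exp 1 ≤ 4 := by have := Real.exp_one_lt_d9; linarith
    calc Real.exp (min c₁ c₂ / 2 * t) ≤ Real.exp ((⌊min c₁ c₂ * (t : ℝ)⌋₊ : ℕ) * 1) := by
          apply Real.exp_le_exp.2
          rw [mul_one]
          linarith
      _ = Real.exp 1 ^ ⌊min c₁ c₂ * (t : ℝ)⌋₊ := by rw [Real.exp_nat_mul]
      _ ≤ 4 ^ ⌊min c₁ c₂ * (t : ℝ)⌋₊ := by gcongr
  obtain ⟨b1, b2⟩ := ht₁ t htt₁
  constructor
  · intro y hy
    have hz : Monotone (fun i => ((a i : ℕ) : ℤ)) := fun i j hij => by simp only; exact_mod_cast ha hij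
    have e1 := coal_eq y hy t (fun i => ((a i : ℕ) : ℤ)) hz
    constructor
    · rw [walks_eq, e1]
      unfold Phi Rw
      simp only [bin_eq]
    · rw [walks_eq, e1]
      have h3 := b1 a r ha (hsmall.mono (min_le_left _ _)) y hy
      have hper : Pool.Agent.J4H39.Per t (fun m => ∀ i, AA a r t m i ≤ y i) := by
        intro m u
        simp only
        rw [per_AA a r (le_refl t) m u]
      have h4 := prop_near hper x hN1
      have e2 : prop x N (fun m => ∀ i, A t (a i) (r i) m ≤ y i) = prop x N (fun m => ∀ i, AA a r t m i ≤ y i) := by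
        simp only [A_eq]
      rw [e2]
      calc |prop x N (fun m => ∀ i, AA a r t m i ≤ y i) - Phi y t (fun i => ((a i : ℕ) : ℤ))| =
          |(prop x N (fun m => ∀ i, AA a r t m i ≤ y i) - Pool.Agent.J4H39.pb t (fun m => ∀ i, AA a r t m i ≤ y i)) +
            (Pool.Agent.J4H39.pb t (fun m => ∀ i, AA a r t m i ≤ y i) - Phi y t (fun i => ((a i : ℕ) : ℤ)))| := by
            congr 1; ring
        _ ≤ ε / 2 + ε / 2 := (abs_add_le _ _).trans (add_le_add (h4.trans herr) h3)
        _ = ε := by ring
  · intro i j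
    obtain ⟨Q, hQ1, hQ2, hQ3⟩ := b2 k a r (hsmall.mono (min_le_right _ _)) i j
    have h3 := prop_near hQ1 x hN1
    have h4 : prop x N (fun m => |(A t (a i) (r i) m : ℝ) - A t (a j) (r j) m| ≤ β * √ (t : ℝ) ∧
        f₀^[t] ((3 ^ a i * m + r i : ℤ) : ℂ) ≠ f₀^[t] ((3 ^ a j * m + r j : ℤ) : ℂ)) ≤ prop x N Q := by
      unfold prop
      apply div_le_div_of_nonneg_right _ (Nat.cast_nonneg N)
      apply Nat.cast_le.2
      apply Set.ncard_le_ncard
      · rintro m ⟨g1, g2, g3, g4⟩
        refine ⟨g1, g2, hQ3 m ?_ ?_⟩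
        · rw [A_eq, A_eq] at g3; exact g3
        · rw [iter_f, iter_f] at g4
          intro h5
          apply g4
          exact congrArg _ h5
      · apply (Set.finite_Ico x (x + N)).subset
        rintro m ⟨g1, g2, -⟩
        exact ⟨g1, g2⟩
    have := (abs_le.1 (h3.trans herr)).2
    linarith

end Pool.Agent.Results.MP_071ec9_an.CoalescingWalks
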