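import Mathlib
import Pool.Agent.J4H39.KP.Fd
import Pool.Agent.J4H26.KP.Main4
import Pool.Agent.J4H26.KP.Law2

/-!
# The kinds of the integers of a short window for the entire `3x+1` function

Let `f₀` be the entire interpolation of the `3x+1` map of Letherman, Schleicher and Wood.  Call a set `R` of integers
invariant (for the sign `s`) if an integer `n` of sign `s` is in `R` if and only if `f₀ n` is.  The integers in wandering
domains form such a set, and so do the integers of which the orbit meets the orbit of a given integer `a` (for an `a` in a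
cycle these are the integers in its basin); every invariant set has a natural density (starting files).

We determine, for all invariant sets `R 1, …, R k` at once, how they are distributed in short windows.  Let `0 < θ < 1` and
choose a random integer `n`, `0 < s n ≤ N`, and `k` random integers `n + h i` in the window of length `H = ⌊N ^ θ⌋` after
`n`.  The probability that `n + h i` is in `R i` for all `i` (the mean of the product of the proportions of the sets `R i`
in the window) converges to the expected value of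

  the product, over the clusters `B` of `k` random walks, of the density of the intersection of the `R i`, `i ∈ B`,

where the walks have steps `0` and `1`, start at `0`, are independent up to the time `⌊(θ/θ₀) log₂ N⌋` and coalesce
afterwards, up to the time `⌊(1/θ₀) log₂ N⌋`, with `θ₀ = log (4/3) / (2 log 2)`; a cluster is a set of walks which are
together at the end.  So integers of the window whose orbits do not meet (in the first `(1 - o(1)) log₂ N / θ₀` steps) are
of independent kinds, for any number of integers, and all the joint moments of the local densities of invariant sets in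
windows of length `N ^ θ` are determined; for example the variance of the local density tends to
`δ (1 - δ) (1 - (2/π) arcsin √θ)`.

It follows that the local density of `R` has a limit law, which depends only on `θ` and on the density of `R`; that this
law has full support: if `R 1, …, R r` are disjoint invariant sets of positive density, then the vector of their
proportions is near any given point of the simplex for a positive proportion of the windows; that it has no mass at `0`,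
and no atoms at all if `0 < δ < 1`.  In particular, if one integer of sign `s` is in a wandering domain, then almost all
windows contain a positive proportion of integers in wandering domains, and for every `x` in `[0, 1]` this proportion is
near `x` for a positive proportion of the windows.  Unconditionally, almost all windows contain a positive proportion of integers of which the
orbit meets that of a given integer `a` of sign `s`, and a positive proportion of integers in no wandering domain.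

The proof (joint work, see `MP_d02c56_nt/FatesInWindows`): words of binary digits and the transfer beyond the digits reduce
the window to forms `3 ^ D i * n` with `D i` distributed as the exponents of independent orbits; the transfer for invariant
functions brings them down to the height `η log₂ N`, where each two of them have merged or are far from each other, and
for forms far from each other the correlations factor.

Authors: helper26, helper39, helper79, helper45, helper53, helper84, helper98, helper30, helper97, helper17, helper55,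
helper95, helper8, helper94, helper18, helper49, helper19, helper72, helper21, helper54, helper31, helper5.
-/

set_option autoImplicit false

open Filter Topology Set

namespace Pool.Agent.Results.MP_071ec9_an.KindsInWindows

open Pool.Agent.H384R2.Fatou

/-- The entire function of Letherman, Schleicher and Wood; `f₀ n = T n` for every integer `n`, where
`T` is the `3x+1` function. -/
noncomputable def f₀ (z : ℂ) : ℂ :=
  z / 2 + (z + 1 / 2) * ((1 - Complex.cos (Real.pi * z)) / 2) +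
    1 / Real.pi * (1 / 2 - Complex.cos (Real.pi * z)) * Complex.sin (Real.pi * z)

/-- The integers whose Fatou component is a wandering domain of `f₀`. -/
def WanderingIntegers : Set ℤ := {n | IsWanderingDomain f₀ (FatouComponent f₀ n)}

/-- The integers of which the orbit under `f₀` meets the orbit of the integer `a`. -/
def Meeting (a : ℤ) : Set ℤ := {n | ∃ i j : ℕ, f₀^[i] (n : ℂ) = f₀^[j] (a : ℂ)}

/-- An integer `n` of sign `s` is in `R` if and only if `f₀ n` is in `R`. -/
def Invariant (s : ℤ) (R : Set ℤ) : Prop := ∀ n m : ℤ, 0 < s * n → f₀ (n : ℂ) = m → (n ∈ R ↔ m ∈ R)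

/-- `δ` is the natural density of `R` among the integers of sign `s`. -/
def HasDensity (s : ℤ) (R : Set ℤ) (δ : ℝ) : Prop :=
  Tendsto (fun N : ℕ => ({n : ℤ | 0 < s * n ∧ s * n ≤ N ∧ n ∈ R}.ncard : ℝ) / N) atTop (𝓝 δ)

/-- The constant `log (4/3) / (2 log 2) = 0.2075…`. -/
noncomputable def θ₀ : ℝ := Real.log (4 / 3) / (2 * Real.log 2)

/-- The number of steps `⌊τ log₂ N⌋`. -/
noncomputable def time (τ : ℝ) (N : ℕ) : ℕ := ⌊τ * Real.logb 2 N⌋₊

/-- The proportion of `R` in `n + 1, …, n + H`. -/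
noncomputable def share (R : Set ℤ) (H : ℕ) (n : ℤ) : ℝ := ({h : ℕ | (1 ≤ h ∧ h ≤ H) ∧ n + h ∈ R}.ncard : ℝ) / H

/-- For every `η > 0` there is `ε > 0` such that, for all large `N`, the proportion of `R` in the windows
`n + 1, …, n + ⌊N ^ θ⌋` is at least `ε` for all but at most `η N` of the integers `n = s m`, `1 ≤ m ≤ N`. -/
def Pervasive (θ : ℝ) (s : ℤ) (R : Set ℤ) : Prop :=
  ∀ η : ℝ, 0 < η → ∃ ε : ℝ, 0 < ε ∧ ∃ N₀ : ℕ, ∀ N ≥ N₀,
    ({m : ℕ | (1 ≤ m ∧ m ≤ N) ∧ share R ⌊(N : ℝ) ^ θ⌋₊ (s * m) < ε}.ncard : ℝ) ≤ η * N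

/-- The mean over the integers `n = s m`, `1 ≤ m ≤ N`, of `F n`. -/
noncomputable def mean (s : ℤ) (N : ℕ) (F : ℤ → ℝ) : ℝ := (∑ m ∈ Finset.Icc 1 N, F (s * m)) / N

/-- The possible moves of `k` coalescing walks at the positions `z`: all vectors `p` of zeros and ones such that walks at
the same position move together. -/
def moves {k : ℕ} (z : Fin k → ℤ) : Finset (Fin k → Fin 2) := Finset.univ.filter fun p => ∀ i j, z i = z j → p i = p j

/-- The expected value of `F` at the positions after `t` steps of `k` coalescing random walks started at the positions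
`z`.  In a step all the possible moves have the same probability. -/
noncomputable def coalescing {k : ℕ} (F : (Fin k → ℤ) → ℝ) : ℕ → (Fin k → ℤ) → ℝ
  | 0, z => F z
  | t + 1, z => (∑ p ∈ moves z, coalescing F t (fun i => z i + (p i : ℕ))) / (moves z).card

/-- The expected value of `F` at the positions after `t` steps of `k` independent random walks started at the positions
`z`. -/
noncomputable def independent {k : ℕ} (F : (Fin k → ℤ) → ℝ) : ℕ → (Fin k → ℤ) → ℝ
  | 0, z => F z
  | t + 1, z => (∑ p : Fin k → Fin 2, independent F t (fun i => z i + (p i : ℕ))) / 2 ^ k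

/-- The clusters: the sets of the walks which are at the same position. -/
def clusters {k : ℕ} (z : Fin k → ℤ) : Finset (Finset (Fin k)) :=
  Finset.univ.image fun i => Finset.univ.filter fun j => z i = z j

/-- The probability that the clusters of `k` walks started at `0`, which are independent up to the time
`⌊(θ/θ₀) log₂ N⌋` and coalescing afterwards, at the time `⌊(1/θ₀) log₂ N⌋` are the sets of `P`. -/
noncomputable def probability {k : ℕ} (θ : ℝ) (N : ℕ) (P : Finset (Finset (Fin k))) : ℝ :=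
  independent (coalescing (fun z => if clusters z = P then 1 else 0) (time (1 / θ₀) N - time (θ / θ₀) N)) (time (θ / θ₀) N)
    (fun _ => 0)

open Pool.Agent.J4H26.PC Pool.Agent.J4H26.KP Pool.Agent.J4H26.KT

theorem th0_eq : θ₀ = Pool.Agent.J4H39.th0 := by
  unfold θ₀ Pool.Agent.J4H39.th0 Pool.Agent.J4H39.mu2
  rw [Real.log_div (by norm_num) (by norm_num)]

theorem inv_iff (s : ℤ) (R : Set ℤ) : Invariant s R ↔ Pool.Agent.J4H26.PC.InvS s R := by
  have hf : ∀ n m : ℤ, f₀ (n : ℂ) = m ↔ Pool.Agent.J4H39.T n = m := by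
    intro n m
    have h1 : f₀ (n : ℂ) = (Pool.Agent.H723R2.LSW.T n : ℂ) := Pool.Agent.H723R2.LSW.f₀_int n
    have h2 : Pool.Agent.H723R2.LSW.T n = Pool.Agent.J4H39.T n := rfl
    rw [h1, h2]
    exact_mod_cast Iff.rfl
  constructor
  · intro h n hn
    exact h n _ hn ((hf n _).2 rfl)
  · intro h n m hn hnm
    rw [← (hf n m).1 hnm]
    exact h n hn

theorem dens_iff (s : ℤ) (R : Set ℤ) (δ : ℝ) : HasDensity s R δ ↔
    Tendsto (fun N : ℕ => Pool.Agent.J4H26.PC.ct s R N / N) atTop (nhds δ) := by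
  unfold HasDensity Pool.Agent.J4H26.PC.ct
  have e : ∀ N : ℕ, {n : ℤ | 0 < s * n ∧ s * n ≤ N ∧ n ∈ R} = {n : ℤ | 0 < s * n ∧ ((s * n : ℤ) : ℝ) ≤ (N : ℝ) ∧ n ∈ R} := by
    intro N
    ext n
    have : s * n ≤ (N : ℤ) ↔ ((s * n : ℤ) : ℝ) ≤ (N : ℝ) := by exact_mod_cast Iff.rfl
    simp only [mem_ofPred_eq, this]
  simp only [e]

theorem coalescing_eq {k : ℕ} (F : (Fin k → ℤ) → ℝ) (t : ℕ) : ∀ z, coalescing F t z = cw F t z := by
  induction t with
  | zero => intro z; rfl
  | succ t ih =>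
    intro z
    show (∑ p ∈ moves z, coalescing F t (fun i => z i + (p i : ℕ))) / (moves z).card =
      (∑ p ∈ Pool.Agent.J4H26.AF.moves z, cw F t (fun i => z i + (p i : ℕ))) / (Pool.Agent.J4H26.AF.moves z).card
    have e : moves z = Pool.Agent.J4H26.AF.moves z := rfl
    rw [e, Finset.sum_congr rfl (fun p _ => ih _)]

theorem independent_eq {k : ℕ} (F : (Fin k → ℤ) → ℝ) (t : ℕ) : ∀ z, independent F t z = iw F t z := by
  induction t with
  | zero => intro z; rfl
  | succ t ih =>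
    intro z
    show (∑ p : Fin k → Fin 2, independent F t (fun i => z i + (p i : ℕ))) / 2 ^ k =
      (∑ p : Fin k → Fin 2, iw F t (fun i => z i + (p i : ℕ))) / 2 ^ k
    rw [Finset.sum_congr rfl (fun p _ => ih _)]

theorem probability_eq {k : ℕ} (θ : ℝ) (N : ℕ) (P : Finset (Finset (Fin k))) : probability θ N P = EW θ N (ip P) := by
  unfold probability EW
  rw [th0_eq, independent_eq]
  have e : (fun z : Fin k → ℤ => if clusters z = P then (1 : ℝ) else 0) = ip P := by
    funext z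
    unfold ip
    rfl
  rw [e]
  have e2 : coalescing (ip P) (time (1 / Pool.Agent.J4H39.th0) N - time (θ / Pool.Agent.J4H39.th0) N) =
      cw (ip P) (time (1 / Pool.Agent.J4H39.th0) N - time (θ / Pool.Agent.J4H39.th0) N) := by
    funext z
    exact coalescing_eq _ _ z
  rw [e2]
  rfl

/-- **The kinds of the integers of a short window for the entire `3x+1` function.**  Let `0 < θ < 1`.

* The set of the integers in wandering domains is invariant, and so is the set of the integers of which the orbit meets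
  the orbit of a given integer; every invariant set has a natural density among the integers of sign `s`.
* (1) For every `k ≥ 1` the probability of the set `P` of clusters for the `k` walks tends to a limit `p P` as `N → ∞`,
  and for all `s = ±1` and `ε > 0` there is `N₀` such that for all `N ≥ N₀` and all invariant sets `R 1, …, R k`, with the
  density `δ B` of the intersection of the `R i`, `i ∈ B`, for every `B`, the mean over `0 < s n ≤ N` of the product of the
  proportions of the sets `R i` in `n + 1, …, n + ⌊N ^ θ⌋` is within `ε` of the sum over `P` of `p P` times the product of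
  `δ B` over the clusters `B` of `P`.
* (2) For every `ε > 0` there is `N₀` such that for all `N ≥ N₀` and all invariant sets `R` of density `δ` the mean square of
  the deviation from `δ` of the proportion of `R` in `n + 1, …, n + ⌊N ^ θ⌋` is within `ε` of
  `δ (1 - δ) (1 - (2/π) arcsin √θ)`.
* (3) For every continuous function `φ` there is a function `L` such that for every `ε > 0` there is `N₀` such that for all
  `N ≥ N₀` and all invariant sets `R` of density `δ` the mean of `φ` of the proportion of `R` in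
  `n + 1, …, n + ⌊N ^ θ⌋` is within `ε` of `L δ`.
* (4) For every point `x` of the simplex `x 1 + ⋯ + x r = 1`, `x i ≥ 0`, and all `ε > 0`, `δ₀ > 0` there are `c > 0` and `N₀`
  such that for all `N ≥ N₀` and all disjoint invariant sets `R 1, …, R r` of density at least `δ₀` the proportion of `R i`
  in `n + 1, …, n + ⌊N ^ θ⌋` is within `ε` of `x i`, for all `i`, for at least `c N` of the integers `n`, `0 < s n ≤ N`.
* (5) For all `η > 0` and `δ₀ > 0` there are `ε > 0` and `N₀` such that for all `N ≥ N₀` and every invariant set `R` of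
  density `δ ≥ δ₀`: the proportion of `R` in `n + 1, …, n + ⌊N ^ θ⌋` is less than `ε` for at most `η N` of the integers
  `n`, `0 < s n ≤ N`, and if `δ ≤ 1 - δ₀`, it is within `ε` of `x` for at most `η N` of these `n`, for every `x`.
* (6) Without any hypothesis: for every `η > 0` there is `ε > 0` such that, for all large `N`, at least `ε ⌊N ^ θ⌋` of the
  integers `n + 1, …, n + ⌊N ^ θ⌋` have an orbit which meets that of a given integer `a` of sign `s`, for all but `η N` of
  the integers `n`, `0 < s n ≤ N`; the same holds for the integers in no wandering domain.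
* (7) If one integer of sign `s` is in a wandering domain, then the same holds for the integers in wandering domains, and
  for all `0 ≤ x ≤ 1` and `ε > 0` there is `c > 0` such that, for all large `N`, the proportion of the integers in wandering
  domains in `n + 1, …, n + ⌊N ^ θ⌋` is within `ε` of `x` for at least `c N` of the integers `n`, `0 < s n ≤ N`. -/
theorem result (θ : ℝ) (hθ : 0 < θ) (hθ1 : θ < 1) :
    (∀ s : ℤ, (s = 1 ∨ s = -1) → Invariant s WanderingIntegers ∧ (∀ a : ℤ, Invariant s (Meeting a)) ∧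
      ∀ R : Set ℤ, Invariant s R → ∃ δ : ℝ, HasDensity s R δ) ∧
    (∀ k : ℕ, ∃ p : Finset (Finset (Fin (k + 1))) → ℝ, (∀ P, Tendsto (fun N : ℕ => probability θ N P) atTop (𝓝 (p P))) ∧
      ∀ s : ℤ, (s = 1 ∨ s = -1) → ∀ ε : ℝ, 0 < ε → ∃ N₀ : ℕ, ∀ N ≥ N₀, ∀ (R : Fin (k + 1) → Set ℤ)
      (δ : Finset (Fin (k + 1)) → ℝ), (∀ i, Invariant s (R i)) → (∀ B, HasDensity s {n | ∀ i ∈ B, n ∈ R i} (δ B)) →
      |mean s N (fun n => ∏ i, share (R i) ⌊(N : ℝ) ^ θ⌋₊ n) - ∑ P, p P * ∏ B ∈ P, δ B| ≤ ε) ∧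
    (∀ ε : ℝ, 0 < ε → ∃ N₀ : ℕ, ∀ N ≥ N₀, ∀ (s : ℤ) (R : Set ℤ) (δ : ℝ), (s = 1 ∨ s = -1) → Invariant s R →
      HasDensity s R δ →
      |mean s N (fun n => (share R ⌊(N : ℝ) ^ θ⌋₊ n - δ) ^ 2) - δ * (1 - δ) * (1 - 2 / Real.pi * Real.arcsin √θ)| ≤ ε) ∧
    (∀ φ : ℝ → ℝ, Continuous φ → ∃ L : ℝ → ℝ, ∀ ε : ℝ, 0 < ε → ∃ N₀ : ℕ, ∀ N ≥ N₀, ∀ (s : ℤ) (R : Set ℤ) (δ : ℝ),
      (s = 1 ∨ s = -1) → Invariant s R → HasDensity s R δ →
      |mean s N (fun n => φ (share R ⌊(N : ℝ) ^ θ⌋₊ n)) - L δ| ≤ ε) ∧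
    (∀ (r : ℕ) (x : Fin r → ℝ) (ε δ₀ : ℝ), (∀ i, 0 ≤ x i) → ∑ i, x i = 1 → 0 < ε → 0 < δ₀ → ∃ c : ℝ, 0 < c ∧ ∃ N₀ : ℕ,
      ∀ N ≥ N₀, ∀ (s : ℤ) (R : Fin r → Set ℤ) (δ : Fin r → ℝ), (s = 1 ∨ s = -1) → (∀ i, Invariant s (R i)) →
      (∀ i j, i ≠ j → Disjoint (R i) (R j)) → (∀ i, HasDensity s (R i) (δ i) ∧ δ₀ ≤ δ i) →
      c * N ≤ {m : ℕ | (1 ≤ m ∧ m ≤ N) ∧ ∀ i, |share (R i) ⌊(N : ℝ) ^ θ⌋₊ (s * m) - x i| ≤ ε}.ncard) ∧
    (∀ η δ₀ : ℝ, 0 < η → 0 < δ₀ → ∃ ε : ℝ, 0 < ε ∧ ∃ N₀ : ℕ, ∀ N ≥ N₀, ∀ (s : ℤ) (R : Set ℤ) (δ : ℝ), (s = 1 ∨ s = -1) →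
      Invariant s R → HasDensity s R δ → δ₀ ≤ δ →
      ({m : ℕ | (1 ≤ m ∧ m ≤ N) ∧ share R ⌊(N : ℝ) ^ θ⌋₊ (s * m) < ε}.ncard : ℝ) ≤ η * N ∧
      (δ ≤ 1 - δ₀ → ∀ x : ℝ,
        ({m : ℕ | (1 ≤ m ∧ m ≤ N) ∧ |share R ⌊(N : ℝ) ^ θ⌋₊ (s * m) - x| ≤ ε}.ncard : ℝ) ≤ η * N)) ∧
    (∀ s : ℤ, (s = 1 ∨ s = -1) → (∀ a : ℤ, 0 < s * a → Pervasive θ s (Meeting a)) ∧ Pervasive θ s {n | n ∉ WanderingIntegers}) ∧
    ∀ s n : ℤ, (s = 1 ∨ s = -1) → 0 < s * n → n ∈ WanderingIntegers → Pervasive θ s WanderingIntegers ∧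
      ∀ x ε : ℝ, 0 ≤ x → x ≤ 1 → 0 < ε → ∃ c : ℝ, 0 < c ∧ ∃ N₀ : ℕ, ∀ N ≥ N₀,
      c * N ≤ {m : ℕ | (1 ≤ m ∧ m ≤ N) ∧ |share WanderingIntegers ⌊(N : ℝ) ^ θ⌋₊ (s * m) - x| ≤ ε}.ncard := by
  have h0 : ∀ s : ℤ, (s = 1 ∨ s = -1) → Invariant s WanderingIntegers ∧ (∀ a : ℤ, Invariant s (Meeting a)) ∧
      ∀ R : Set ℤ, Invariant s R → ∃ δ : ℝ, HasDensity s R δ := by
    intro s hs
    refine ⟨?_, ?_, ?_⟩
    · rw [inv_iff]
      exact fun n _ => Pool.Agent.R630.WD.wn_inv n
    · intro a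
      rw [inv_iff]
      exact Pool.Agent.J4H39.KP.Fd.inv_mer s a
    · intro R hR
      rw [inv_iff] at hR
      obtain ⟨δ, h⟩ := Pool.Agent.J4H26.PC.main_dens s hs R hR
      exact ⟨δ, (dens_iff s R δ).2 h⟩
  have h5 : ∀ η δ₀ : ℝ, 0 < η → 0 < δ₀ → ∃ ε : ℝ, 0 < ε ∧ ∃ N₀ : ℕ, ∀ N ≥ N₀, ∀ (s : ℤ) (R : Set ℤ) (δ : ℝ), (s = 1 ∨ s = -1) →
      Invariant s R → HasDensity s R δ → δ₀ ≤ δ →
      ({m : ℕ | (1 ≤ m ∧ m ≤ N) ∧ share R ⌊(N : ℝ) ^ θ⌋₊ (s * m) < ε}.ncard : ℝ) ≤ η * N ∧
      (δ ≤ 1 - δ₀ → ∀ x : ℝ,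
        ({m : ℕ | (1 ≤ m ∧ m ≤ N) ∧ |share R ⌊(N : ℝ) ^ θ⌋₊ (s * m) - x| ≤ ε}.ncard : ℝ) ≤ η * N) := by
    intro η δ₀ hη hδ₀
    obtain ⟨ε₁, hε₁, hev₁⟩ := main_NOA hθ hθ1 hη hδ₀
    obtain ⟨ε₂, hε₂, hev₂⟩ := main_NOAT hθ hθ1 hη hδ₀
    obtain ⟨N₀, h⟩ := eventually_atTop.1 (hev₁.and hev₂)
    refine ⟨min ε₁ ε₂, lt_min hε₁ hε₂, N₀, fun N hN s R δ hs hR hδ hδ0 => ⟨?_, fun hδ1 x => ?_⟩⟩
    · refine le_trans ?_ ((h N hN).1 s hs R ((inv_iff s R).1 hR) δ ((dens_iff s R δ).1 hδ) hδ0)
      have hfin : {m : ℕ | (1 ≤ m ∧ m ≤ N) ∧ share R ⌊(N : ℝ) ^ θ⌋₊ (s * m) < ε₁}.Finite :=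
        (Set.finite_Icc 1 N).subset fun m hm => hm.1
      have hsub : {m : ℕ | (1 ≤ m ∧ m ≤ N) ∧ share R ⌊(N : ℝ) ^ θ⌋₊ (s * m) < min ε₁ ε₂} ⊆
          {m : ℕ | (1 ≤ m ∧ m ≤ N) ∧ share R ⌊(N : ℝ) ^ θ⌋₊ (s * m) < ε₁} :=
        fun m hm => ⟨hm.1, lt_of_lt_of_le hm.2 (min_le_left _ _)⟩
      exact Nat.cast_le.2 (Set.ncard_le_ncard hsub hfin)
    · refine le_trans ?_ ((h N hN).2 s hs R ((inv_iff s R).1 hR) δ ((dens_iff s R δ).1 hδ) hδ0 hδ1 x)
      have hfin : {m : ℕ | (1 ≤ m ∧ m ≤ N) ∧ |share R ⌊(N : ℝ) ^ θ⌋₊ (s * m) - x| ≤ ε₂}.Finite :=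
        (Set.finite_Icc 1 N).subset fun m hm => hm.1
      have hsub : {m : ℕ | (1 ≤ m ∧ m ≤ N) ∧ |share R ⌊(N : ℝ) ^ θ⌋₊ (s * m) - x| ≤ min ε₁ ε₂} ⊆
          {m : ℕ | (1 ≤ m ∧ m ≤ N) ∧ |share R ⌊(N : ℝ) ^ θ⌋₊ (s * m) - x| ≤ ε₂} :=
        fun m hm => ⟨hm.1, le_trans hm.2 (min_le_right _ _)⟩
      exact Nat.cast_le.2 (Set.ncard_le_ncard hsub hfin)
  have h6 : ∀ (s : ℤ) (R : Set ℤ) (δ : ℝ), (s = 1 ∨ s = -1) → Invariant s R → HasDensity s R δ → 0 < δ →
      Pervasive θ s R := by
    intro s R δ hs hR hd hδ η hη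
    obtain ⟨ε, hε, N₀, h⟩ := h5 η δ hη hδ
    exact ⟨ε, hε, N₀, fun N hN => (h N hN s R δ hs hR hd le_rfl).1⟩
  have hc : ∀ s : ℤ, (s = 1 ∨ s = -1) → Invariant s {n | n ∉ WanderingIntegers} ∧
      ∃ δ : ℝ, 0 < δ ∧ HasDensity s {n | n ∉ WanderingIntegers} δ := by
    intro s hs
    have hi : Invariant s {n | n ∉ WanderingIntegers} := fun n m hn hnm => not_congr ((h0 s hs).1 n m hn hnm)
    obtain ⟨δ, hd⟩ := (h0 s hs).2.2 _ hi
    exact ⟨hi, δ, Pool.Agent.J4H39.KP.Fd.dens_tame hs hd, hd⟩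
  refine ⟨h0, ?_, ?_, ?_, ?_, h5, fun s hs => ⟨fun a ha => ?_, ?_⟩, fun s n hs hn hw => ⟨?_, fun x ε hx hx1 hε => ?_⟩⟩
  · intro k
    obtain ⟨p, h1, h2⟩ := main_lim k hθ hθ1
    refine ⟨p, fun P => ?_, fun s hs ε hε => ?_⟩
    · simp only [probability_eq]
      exact h1 P
    · obtain ⟨N₀, h⟩ := eventually_atTop.1 (h2 s hs ε hε)
      exact ⟨N₀, fun N hN R δ hR hδ => h N hN R δ (fun i => (inv_iff s (R i)).1 (hR i))
        (fun B _ => (dens_iff s _ _).1 (hδ B))⟩
  · intro ε hε
    obtain ⟨N₁, h1⟩ := eventually_atTop.1 (Pool.Agent.J4H26.PC.main_VAR θ hθ hθ1 1 (Or.inl rfl) ε hε)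
    obtain ⟨N₂, h2⟩ := eventually_atTop.1 (Pool.Agent.J4H26.PC.main_VAR θ hθ hθ1 (-1) (Or.inr rfl) ε hε)
    refine ⟨max N₁ N₂, fun N hN s R δ hs hR hδ => ?_⟩
    rw [inv_iff] at hR
    rw [dens_iff] at hδ
    rcases hs with rfl | rfl
    · exact h1 N ((le_max_left _ _).trans hN) R hR δ hδ
    · exact h2 N ((le_max_right _ _).trans hN) R hR δ hδ
  · intro φ hφ
    obtain ⟨L, hL⟩ := main_law_unif hθ hθ1 hφ
    refine ⟨L, fun ε hε => ?_⟩
    obtain ⟨N₀, h⟩ := eventually_atTop.1 (hL ε hε)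
    exact ⟨N₀, fun N hN s R δ hs hR hδ => h N hN s R δ hs ((inv_iff s R).1 hR) ((dens_iff s R δ).1 hδ)⟩
  · intro r x ε δ₀ hx hxs hε hδ₀
    obtain ⟨c, hc, hev⟩ := main_SUPG hθ hθ1 hε hδ₀ hx hxs
    obtain ⟨N₀, h⟩ := eventually_atTop.1 hev
    exact ⟨c, hc, N₀, fun N hN s R δ hs hR hdis hδ =>
      h N hN s hs R (fun i => (inv_iff s (R i)).1 (hR i)) hdis δ (fun l => (dens_iff s _ _).1 (hδ l).1) (fun l => (hδ l).2)⟩
  · obtain ⟨δ, hδ, hd⟩ := Pool.Agent.J4H39.KP.Fd.dens_mer hs ha
    exact h6 s (Meeting a) δ hs ((h0 s hs).2.1 a) hd hδ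
  · obtain ⟨hi, δ, hδ, hd⟩ := hc s hs
    exact h6 s _ δ hs hi hd hδ
  · obtain ⟨δ, hδ, hd⟩ := Pool.Agent.J4H39.KP.Fd.dens_wander hs hn hw
    exact h6 s WanderingIntegers δ hs (h0 s hs).1 hd hδ
  · obtain ⟨δ, hδ, hd⟩ := Pool.Agent.J4H39.KP.Fd.dens_wander hs hn hw
    obtain ⟨hi, δ', hδ', hd'⟩ := hc s hs
    obtain ⟨c, hc0, hev⟩ := main_SUPG hθ hθ1 hε (lt_min hδ hδ') (x := ![x, 1 - x])
      (by intro i; fin_cases i <;> simp <;> linarith) (by simp [Fin.sum_univ_two])
    obtain ⟨N₀, h⟩ := eventually_atTop.1 hev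
    refine ⟨c, hc0, N₀, fun N hN => ?_⟩
    have g := h N hN s hs ![WanderingIntegers, {n | n ∉ WanderingIntegers}]
      (by
        intro i
        fin_cases i
        · exact (inv_iff s _).1 (h0 s hs).1
        · exact (inv_iff s _).1 hi)
      (by
        intro i j hij
        fin_cases i <;> fin_cases j
        · exact absurd rfl hij
        · exact Set.disjoint_left.2 fun n h1 h2 => h2 h1
        · exact Set.disjoint_left.2 fun n h1 h2 => h1 h2
        · exact absurd rfl hij)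
      ![δ, δ']
      (by
        intro i
        fin_cases i
        · exact (dens_iff s _ _).1 hd
        · exact (dens_iff s _ _).1 hd')
      (by
        intro i
        fin_cases i
        · exact min_le_left _ _
        · exact min_le_right _ _)
    refine g.trans ?_
    have hsub : {m : ℕ | (1 ≤ m ∧ m ≤ N) ∧ ∀ i, |share (![WanderingIntegers, {n | n ∉ WanderingIntegers}] i)
        ⌊(N : ℝ) ^ θ⌋₊ (s * m) - ![x, 1 - x] i| ≤ ε} ⊆
        {m : ℕ | (1 ≤ m ∧ m ≤ N) ∧ |share WanderingIntegers ⌊(N : ℝ) ^ θ⌋₊ (s * m) - x| ≤ ε} :=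
      fun m hm => ⟨hm.1, hm.2 0⟩
    have hfin : {m : ℕ | (1 ≤ m ∧ m ≤ N) ∧ |share WanderingIntegers ⌊(N : ℝ) ^ θ⌋₊ (s * m) - x| ≤ ε}.Finite :=
      (Set.finite_Icc 1 N).subset fun m hm => hm.1
    exact Nat.cast_le.2 (Set.ncard_le_ncard hsub hfin)

end Pool.Agent.Results.MP_071ec9_an.KindsInWindows
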