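import Mathlib
import Pool.Agent.J4H39.KP.Fd
import Pool.Agent.J4H39.KP.T8

/-!
# How often nearly all of `N ^ θ` consecutive integers lie in wandering domains (or in one basin)

Let `f₀` be the entire interpolation of the `3x+1` map of Letherman, Schleicher and Wood.  Call a set `R` of integers
invariant (for the sign `s`) if an integer `n` of sign `s` is in `R` if and only if `f₀ n` is.  The integers in wandering
domains form such a set, and so do the integers of which the orbit meets the orbit of a given integer `a` (for an `a` in a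
cycle these are the integers in its basin); every invariant set has a natural density (starting files).  Let `0 < θ < 1` and
`H = ⌊N ^ θ⌋`.

Let `A (R, ε)` be the proportion of the `n` of sign `s`, `|n| ≤ N`, for which all but at most `ε H` of the integers
`n + 1, …, n + H` are in `R`, and `Z (R, ε)` the proportion of the `n` for which at most `ε H` of them are in `R`.  For small
`ε` and `N ≥ N₀ (ε)`, if the density of `R` is positive, then

  `A (R, ε) ≥ exp (-C √(log (1/ε)))`  and  `Z (R, ε) ≤ exp (-c √(log (1/ε)))`,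

and if the density is less than `1`, then `A (R, ε) ≤ exp (-c √(log (1/ε)))` and `Z (R, ε) ≥ exp (-C √(log (1/ε)))`.  So for
`0 < δ < 1` both proportions are `exp (-√(log (1/ε)))` up to a constant factor in the exponent.  The first two inequalities
hold unconditionally for the integers of which the orbit meets that of a given integer, and for the integers in no
wandering domain; and if one integer of sign `s` is in a wandering domain, then they hold for the integers in wandering
domains.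

The proof.  The mean of the `K`-th power of the share of `R` in the windows is close to the expected value of `δ ^ ν`, `ν`
the number of the clusters of `K` random walks which are independent at first and coalesce afterwards (joint work with
helper26: trajectories which do not meet have independent fates).  The expected value of `ν` is `O(√(log K))`, which gives
the lower bound by convexity.  For the upper bound one has to show that `ν < c √(log K)` is unlikely: of `2 m` walks
`a₁ < b₁ < a₂ < b₂ < …` at distances of the order of the square root of the time, the events that `a_i`, `b_i` do not meet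
are negatively correlated.  Pieces of the proof by helper39, helper55, helper18, helper98, helper42, helper26.
-/

set_option autoImplicit false

open Filter Topology Set

namespace Pool.Agent.Results.MP_071ec9_an.NearlyPureWindows

open Pool.Agent.H384R2.Fatou

/-- The entire function of Letherman, Schleicher and Wood; `f₀ n = T n` for every integer `n`, where
`T` is the `3x+1` function. -/
noncomputable def f₀ (z : ℂ) : ℂ :=
  z / 2 + (z + 1 / 2) * ((1 - Complex.cos (Real.pi * z)) / 2) +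
    1 / Real.pi * (1 / 2 - Complex.cos (Real.pi * z)) * Complex.sin (Real.pi * z)

/-- The integers whose Fatou component is a wandering domain of `f₀`. -/
def WanderingIntegers : Set ℤ := {n | IsWanderingDomain f₀ (FatouComponent f₀ n)}

/-- The integers of which the orbit under `f₀` meets the orbit of the integer `a`. -/
def Meeting (a : ℤ) : Set ℤ := {n | ∃ i j : ℕ, f₀^[i] (n : ℂ) = f₀^[j] (a : ℂ)}

/-- An integer `n` of sign `s` is in `R` if and only if `f₀ n` is in `R`. -/
def Invariant (s : ℤ) (R : Set ℤ) : Prop := ∀ n m : ℤ, 0 < s * n → f₀ (n : ℂ) = m → (n ∈ R ↔ m ∈ R)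

/-- `δ` is the natural density of `R` among the integers of sign `s`. -/
def HasDensity (s : ℤ) (R : Set ℤ) (δ : ℝ) : Prop :=
  Tendsto (fun N : ℕ => ({n : ℤ | 0 < s * n ∧ s * n ≤ N ∧ n ∈ R}.ncard : ℝ) / N) atTop (𝓝 δ)

/-- The proportion of `R` in `n + 1, …, n + H`. -/
noncomputable def share (R : Set ℤ) (H : ℕ) (n : ℤ) : ℝ := ({h : ℕ | (1 ≤ h ∧ h ≤ H) ∧ n + h ∈ R}.ncard : ℝ) / H

/-- The proportion of the integers `n` with the property `P` among the `n = s m`, `1 ≤ m ≤ N`. -/
noncomputable def proportion (s : ℤ) (N : ℕ) (P : ℤ → Prop) : ℝ := ({m : ℕ | (1 ≤ m ∧ m ≤ N) ∧ P (s * m)}.ncard : ℝ) / N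

theorem inv_iff (s : ℤ) (R : Set ℤ) : Invariant s R ↔ Pool.Agent.J4H26.PC.InvS s R := by
  have hf : ∀ n m : ℤ, f₀ (n : ℂ) = m ↔ Pool.Agent.J4H39.T n = m := by
    intro n m
    have h1 : f₀ (n : ℂ) = (Pool.Agent.H723R2.LSW.T n : ℂ) := Pool.Agent.H723R2.LSW.f₀_int n
    have h2 : Pool.Agent.H723R2.LSW.T n = Pool.Agent.J4H39.T n := rfl
    rw [h1, h2]
    exact_mod_cast Iff.rfl
  constructor
  · intro h n hn
    exact h n _ hn ((hf n _).2 rfl)
  · intro h n m hn hnm
    rw [← (hf n m).1 hnm]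
    exact h n hn

theorem dens_iff (s : ℤ) (R : Set ℤ) (δ : ℝ) : HasDensity s R δ ↔
    Tendsto (fun N : ℕ => Pool.Agent.J4H26.PC.ct s R N / N) atTop (nhds δ) := by
  unfold HasDensity Pool.Agent.J4H26.PC.ct
  have e : ∀ N : ℕ, {n : ℤ | 0 < s * n ∧ s * n ≤ N ∧ n ∈ R} = {n : ℤ | 0 < s * n ∧ ((s * n : ℤ) : ℝ) ≤ (N : ℝ) ∧ n ∈ R} := by
    intro N
    ext n
    have : s * n ≤ (N : ℤ) ↔ ((s * n : ℤ) : ℝ) ≤ (N : ℝ) := by exact_mod_cast Iff.rfl
    simp only [mem_ofPred_eq, this]
  simp only [e]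

/-- For some `c, C, ε₀ > 0`, for `0 < ε ≤ ε₀` and all `N ≥ N₀ (ε)`, with `H = ⌊N ^ θ⌋`: at least `(1 - ε) H` of the integers
`n + 1, …, n + H` are in `R` for a proportion at least `exp (-C √(log (1/ε)))` of the integers `n = s m`, `1 ≤ m ≤ N`, and at
most `ε H` of them for a proportion at most `exp (-c √(log (1/ε)))`. -/
def OftenFull (θ : ℝ) (s : ℤ) (R : Set ℤ) : Prop :=
  ∃ c C ε₀ : ℝ, 0 < c ∧ 0 < C ∧ 0 < ε₀ ∧ ∀ ε : ℝ, 0 < ε → ε ≤ ε₀ → ∃ N₀ : ℕ, ∀ N ≥ N₀,
    Real.exp (-C * √(Real.log (1 / ε))) ≤ proportion s N (fun n => 1 - ε ≤ share R ⌊(N : ℝ) ^ θ⌋₊ n) ∧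
    proportion s N (fun n => share R ⌊(N : ℝ) ^ θ⌋₊ n ≤ ε) ≤ Real.exp (-c * √(Real.log (1 / ε)))

/-- **Nearly pure windows.**  Let `0 < θ < 1` and write `A = 1 - ε ≤ share R ⌊N ^ θ⌋ n` (nearly all of the integers of the
window are in `R`) and `Z = share R ⌊N ^ θ⌋ n ≤ ε` (nearly none).

* The set of the integers in wandering domains is invariant, and so is the set of the integers of which the orbit meets
  the orbit of a given integer; every invariant set has a natural density among the integers of sign `s`.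
* For every `δ₀ > 0` there are `c, C, ε₀ > 0` such that for `0 < ε ≤ ε₀` and all `N ≥ N₀ (ε)`, for every invariant set `R` with
  the density `δ` among the integers of sign `s`: if `δ ≥ δ₀`, then the proportion of the `n`, `0 < s n ≤ N`, with `A` is at
  least `exp (-C √(log (1/ε)))`, and the proportion of the `n` with `Z` is at most `exp (-c √(log (1/ε)))`; if `δ ≤ 1 - δ₀`,
  then the proportion of the `n` with `Z` is at least `exp (-C √(log (1/ε)))`, and the proportion of the `n` with `A` is at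
  most `exp (-c √(log (1/ε)))`.
* Without any hypothesis the first two inequalities hold (with `c, C, ε₀` depending on `R`) for the set of the integers of
  which the orbit meets the orbit of a given integer `a` of sign `s`, and for the set of the integers in no wandering
  domain.
* If one integer of sign `s` is in a wandering domain, then they hold for the set of the integers in wandering domains. -/
theorem result (θ : ℝ) (hθ : 0 < θ) (hθ1 : θ < 1) :
    (∀ s : ℤ, (s = 1 ∨ s = -1) → Invariant s WanderingIntegers ∧ (∀ a : ℤ, Invariant s (Meeting a)) ∧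
      ∀ R : Set ℤ, Invariant s R → ∃ δ : ℝ, HasDensity s R δ) ∧
    (∀ δ₀ : ℝ, 0 < δ₀ → ∃ c C ε₀ : ℝ, 0 < c ∧ 0 < C ∧ 0 < ε₀ ∧ ∀ ε : ℝ, 0 < ε → ε ≤ ε₀ → ∃ N₀ : ℕ, ∀ N ≥ N₀,
      ∀ (s : ℤ) (R : Set ℤ) (δ : ℝ), (s = 1 ∨ s = -1) → Invariant s R → HasDensity s R δ →
      (δ₀ ≤ δ → Real.exp (-C * √(Real.log (1 / ε))) ≤ proportion s N (fun n => 1 - ε ≤ share R ⌊(N : ℝ) ^ θ⌋₊ n) ∧
        proportion s N (fun n => share R ⌊(N : ℝ) ^ θ⌋₊ n ≤ ε) ≤ Real.exp (-c * √(Real.log (1 / ε)))) ∧
      (δ ≤ 1 - δ₀ → Real.exp (-C * √(Real.log (1 / ε))) ≤ proportion s N (fun n => share R ⌊(N : ℝ) ^ θ⌋₊ n ≤ ε) ∧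
        proportion s N (fun n => 1 - ε ≤ share R ⌊(N : ℝ) ^ θ⌋₊ n) ≤ Real.exp (-c * √(Real.log (1 / ε))))) ∧
    (∀ s : ℤ, (s = 1 ∨ s = -1) → (∀ a : ℤ, 0 < s * a → OftenFull θ s (Meeting a)) ∧
      OftenFull θ s {n | n ∉ WanderingIntegers}) ∧
    ∀ s n : ℤ, (s = 1 ∨ s = -1) → 0 < s * n → n ∈ WanderingIntegers → OftenFull θ s WanderingIntegers := by
  have hinv : ∀ s : ℤ, (s = 1 ∨ s = -1) → Invariant s WanderingIntegers ∧ (∀ a : ℤ, Invariant s (Meeting a)) ∧
      ∀ R : Set ℤ, Invariant s R → ∃ δ : ℝ, HasDensity s R δ := by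
    intro s hs
    refine ⟨?_, ?_, ?_⟩
    · rw [inv_iff]
      exact fun n _ => Pool.Agent.R630.WD.wn_inv n
    · intro a
      rw [inv_iff]
      exact Pool.Agent.J4H39.KP.Fd.inv_mer s a
    · intro R hR
      rw [inv_iff] at hR
      obtain ⟨δ, h⟩ := Pool.Agent.J4H26.PC.main_dens s hs R hR
      exact ⟨δ, (dens_iff s R δ).2 h⟩
  have hmain : ∀ δ₀ : ℝ, 0 < δ₀ → ∃ c C ε₀ : ℝ, 0 < c ∧ 0 < C ∧ 0 < ε₀ ∧ ∀ ε : ℝ, 0 < ε → ε ≤ ε₀ → ∃ N₀ : ℕ, ∀ N ≥ N₀,
      ∀ (s : ℤ) (R : Set ℤ) (δ : ℝ), (s = 1 ∨ s = -1) → Invariant s R → HasDensity s R δ →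
      (δ₀ ≤ δ → Real.exp (-C * √(Real.log (1 / ε))) ≤ proportion s N (fun n => 1 - ε ≤ share R ⌊(N : ℝ) ^ θ⌋₊ n) ∧
        proportion s N (fun n => share R ⌊(N : ℝ) ^ θ⌋₊ n ≤ ε) ≤ Real.exp (-c * √(Real.log (1 / ε)))) ∧
      (δ ≤ 1 - δ₀ → Real.exp (-C * √(Real.log (1 / ε))) ≤ proportion s N (fun n => share R ⌊(N : ℝ) ^ θ⌋₊ n ≤ ε) ∧
        proportion s N (fun n => 1 - ε ≤ share R ⌊(N : ℝ) ^ θ⌋₊ n) ≤ Real.exp (-c * √(Real.log (1 / ε)))) := by
    intro δ₀ hδ₀
    obtain ⟨c, C, ε₀, hc, hC, hε₀, h⟩ := Pool.Agent.J4H39.KP.main_TL hθ hθ1 hδ₀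
    refine ⟨c, C, ε₀, hc, hC, hε₀, fun ε hε hεε => ?_⟩
    obtain ⟨N₁, h1⟩ := eventually_atTop.1 (h ε hε hεε)
    refine ⟨max N₁ 1, fun N hN s R δ hs hR hδ => ?_⟩
    rw [inv_iff] at hR
    rw [dens_iff] at hδ
    have hN0 : (0 : ℝ) < N := by
      have : 1 ≤ N := (le_max_right _ _).trans hN
      exact_mod_cast this
    have g := h1 N ((le_max_left _ _).trans hN) s hs R hR δ hδ
    unfold proportion
    rw [le_div_iff₀ hN0, div_le_iff₀ hN0, le_div_iff₀ hN0, div_le_iff₀ hN0]
    exact g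
  have hpos : ∀ (s : ℤ) (R : Set ℤ) (δ : ℝ), (s = 1 ∨ s = -1) → Invariant s R → HasDensity s R δ → 0 < δ →
      OftenFull θ s R := by
    intro s R δ hs hR hd hδ
    obtain ⟨c, C, ε₀, hc, hC, hε₀, h⟩ := hmain δ hδ
    refine ⟨c, C, ε₀, hc, hC, hε₀, fun ε hε hεε => ?_⟩
    obtain ⟨N₀, h1⟩ := h ε hε hεε
    exact ⟨N₀, fun N hN => (h1 N hN s R δ hs hR hd).1 le_rfl⟩
  refine ⟨hinv, hmain, fun s hs => ⟨fun a ha => ?_, ?_⟩, fun s n hs hn hw => ?_⟩
  · obtain ⟨δ, hδ, hd⟩ := Pool.Agent.J4H39.KP.Fd.dens_mer hs ha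
    exact hpos s (Meeting a) δ hs ((hinv s hs).2.1 a) hd hδ
  · have hi : Invariant s {n | n ∉ WanderingIntegers} := fun n m hn hnm => not_congr ((hinv s hs).1 n m hn hnm)
    obtain ⟨δ, hd⟩ := (hinv s hs).2.2 _ hi
    exact hpos s _ δ hs hi hd (Pool.Agent.J4H39.KP.Fd.dens_tame hs hd)
  · obtain ⟨δ, hδ, hd⟩ := Pool.Agent.J4H39.KP.Fd.dens_wander hs hn hw
    exact hpos s WanderingIntegers δ hs (hinv s hs).1 hd hδ

end Pool.Agent.Results.MP_071ec9_an.NearlyPureWindows
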