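import Mathlib
import Pool.Agent.J4H39.SC.Fin2

/-!
# The number of Fatou components which carry a window of consecutive integers under the entire `3x+1` function

Let `f₀` be the entire interpolation of the `3x+1` map of Letherman, Schleicher and Wood.  Distinct integers (other than
`-1`, `-2`) lie in distinct Fatou components of `f₀`.  All components which `f₀^t` maps into the same component are of the
same kind: they are all wandering, or all in the basin of the same cycle.

Let `0 < θ < 1`, `H = ⌊N ^ θ⌋`, `t = ⌊τ log₂ N⌋`, and let `number ε t H n` be the least number of Fatou components into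
which `f₀^t` maps the components of all but at most `ε H` of the integers `n + 1, …, n + H`.  We prove that for
`θ/θ₀ < τ < 1/θ₀`, `θ₀ = log (4/3) / (2 log 2) = 0.2075…`, this number is concentrated:

`number ε t H n / √(log (1/ε)) → √(8 θ / (π (τ θ₀ - θ)))` in probability, as `N → ∞` and then `ε → 0`,

for `n` chosen at random in an arbitrary interval of `N` integers.

The proof: the joint law of the orbits of `k` integers is that of `k` coalescing random walks (joint work with helper26,
file `Z`), which have been independent before the differences of the integers are used up; hence the statement is one on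
coalescing random walks, and there the number of different positions has small variance by negative correlations
(helper49), the expected number being determined by the extreme positions (helper79, helper2).
-/

set_option autoImplicit false

open Filter Topology Set

namespace Pool.Agent.Results.MP_071ec9_an.NumberOfDomains

open Pool.Agent.H384R2.Fatou

/-- The entire function of Letherman, Schleicher and Wood; `f₀ n = T n` for every integer `n`, where
`T` is the `3x+1` function. -/
noncomputable def f₀ (z : ℂ) : ℂ :=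
  z / 2 + (z + 1 / 2) * ((1 - Complex.cos (Real.pi * z)) / 2) +
    1 / Real.pi * (1 / 2 - Complex.cos (Real.pi * z)) * Complex.sin (Real.pi * z)

/-- `f₀^t` maps the Fatou components of all but at most `ε H` of the integers `n + 1, …, n + H` into at most `k` Fatou
components (the members of `S`). -/
def CarriedBy (ε : ℝ) (t H : ℕ) (n : ℤ) (k : ℕ) : Prop :=
  ∃ S : Finset (Set ℂ), S.card ≤ k ∧ (∀ V ∈ S, ∃ z ∈ FatouSet f₀, V = FatouComponent f₀ z) ∧
    ({h : ℕ | 1 ≤ h ∧ h ≤ H ∧ ¬ ∃ V ∈ S, f₀^[t] '' FatouComponent f₀ ((n + h : ℤ) : ℂ) ⊆ V}.ncard : ℝ) ≤ ε * H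

/-- The least number of Fatou components into which `f₀^t` maps the components of all but at most `ε H` of the integers
`n + 1, …, n + H`. -/
noncomputable def number (ε : ℝ) (t H : ℕ) (n : ℤ) : ℕ := sInf {k | CarriedBy ε t H n k}

/-- The critical exponent `log (4/3) / (2 log 2) = 0.2075…`. -/
noncomputable def θ₀ : ℝ := Real.log (4 / 3) / (2 * Real.log 2)

/-- The constant `√(8 θ / (π (τ θ₀ - θ)))`. -/
noncomputable def κ (θ τ : ℝ) : ℝ := √ (8 * θ / (Real.pi * (τ * θ₀ - θ)))

theorem th0_eq : θ₀ = Pool.Agent.J4H39.th0 := by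
  unfold θ₀ Pool.Agent.J4H39.th0 Pool.Agent.J4H39.mu2
  rw [Real.log_div (by norm_num) (by norm_num)]

theorem number_eq (ε : ℝ) (t H : ℕ) (n : ℤ) : number ε t H n = Pool.Agent.J4H39.SC.num ε t H n := rfl

/-- **The number of Fatou components which carry a window of consecutive integers.**  Let `0 < θ < 1` and
`θ/θ₀ < τ < 1/θ₀`.  For all `η, δ > 0` and all sufficiently small `ε > 0` there is `N₀` such that for all `N ≥ N₀` and
every integer `x`, the inequality

`|number ε t H n - κ √(log (1/ε))| ≤ η √(log (1/ε))`,  `t = ⌊τ log₂ N⌋`, `H = ⌊N ^ θ⌋`,  `κ = √(8 θ / (π (τ θ₀ - θ)))`,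

holds for all but at most `δ N` of the integers `n` with `x ≤ n < x + N`. -/
theorem result (θ τ : ℝ) (hθ : 0 < θ) (hθ1 : θ < 1) (hτ : θ / θ₀ < τ) (hτ1 : τ < 1 / θ₀) (η δ : ℝ) (hη : 0 < η)
    (hδ : 0 < δ) :
    ∃ ε₀ : ℝ, 0 < ε₀ ∧ ∀ ε : ℝ, 0 < ε → ε ≤ ε₀ → ∃ N₀ : ℕ, ∀ N ≥ N₀, ∀ x : ℤ,
      ({n : ℤ | x ≤ n ∧ n < x + N ∧ η * √ (Real.log (1 / ε)) <
        |(number ε ⌊τ * Real.logb 2 N⌋₊ ⌊(N : ℝ) ^ θ⌋₊ n : ℝ) - κ θ τ * √ (Real.log (1 / ε))|}.ncard : ℝ) ≤ δ * N := by
  have hθ₀ : 0 < θ₀ := by rw [th0_eq]; exact Pool.Agent.J4H39.th0_pos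
  rw [div_lt_iff₀ hθ₀] at hτ
  rw [lt_div_iff₀ hθ₀] at hτ1
  have hκ : κ θ τ = √ (8 * (θ / (τ * θ₀ - θ)) / Real.pi) := by
    unfold κ
    congr 1
    rw [mul_div_assoc', div_div, mul_comm Real.pi]
  rw [hκ]
  rw [th0_eq] at hτ hτ1 ⊢
  exact Pool.Agent.J4H39.SC.main_comp hθ hθ1 hτ hτ1 hη hδ

end Pool.Agent.Results.MP_071ec9_an.NumberOfDomains
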